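import Mathlib
import Pool.Agent.H32.ConnLim

set_option autoImplicit false

namespace Pool.Agent.Results.MP_66c21b_co.NoLimit

open Filter Topology

/-- Graphs on `Fin n` with no induced subgraph isomorphic to `H`. -/
def X {k : ℕ} (H : SimpleGraph (Fin k)) (n : ℕ) : Set (SimpleGraph (Fin n)) :=
  {G | IsEmpty (H ↪g G)}

/-- The isomorphism class of a graph on `Fin n`. -/
def cls {n : ℕ} (G : SimpleGraph (Fin n)) : Set (SimpleGraph (Fin n)) :=
  {G' | Nonempty (G ≃g G')}

/-- Probability of connectedness, labelled model. -/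
noncomputable def pLab {k : ℕ} (H : SimpleGraph (Fin k)) (n : ℕ) : ℝ :=
  ({G | G ∈ X H n ∧ G.Connected}.ncard : ℝ) / (X H n).ncard

/-- Probability of connectedness, unlabelled model. -/
noncomputable def pUnlab {k : ℕ} (H : SimpleGraph (Fin k)) (n : ℕ) : ℝ :=
  ((cls '' {G | G ∈ X H n ∧ G.Connected}).ncard : ℝ) / (cls '' X H n).ncard

/-- The sequence converges to a limit strictly between `0` and `1`. -/
def LimitProperty (p : ℕ → ℝ) : Prop := ∃ l : ℝ, 0 < l ∧ l < 1 ∧ Tendsto p atTop (𝓝 l)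

theorem result {k : ℕ} (H : SimpleGraph (Fin k)) (hk : 2 ≤ k) (hH : ¬ H.Connected) :
    ¬ LimitProperty (pLab H) ∧ ¬ LimitProperty (pUnlab H) := by
  have : Nonempty (Fin k) := ⟨⟨0, by omega⟩⟩
  have hH' : ¬ H.Preconnected := fun h => hH ⟨h⟩
  constructor
  · have := Pool.Agent.H32.ConnLim.main H (T := fun n => SimpleGraph (Fin n)) (fun _ G => G) hH'
      (fun _ _ _ _ _ G G' h => by obtain rfl : G = G' := h; rfl)
      (fun _ G G' h => by obtain rfl : G = G' := h; exact ⟨SimpleGraph.Iso.refl⟩)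
    simp only [Set.image_id'] at this
    exact this
  · have hc : ∀ n (G G' : SimpleGraph (Fin n)), cls G = cls G' ↔ Nonempty (G ≃g G') := by
      intro n G G'
      refine ⟨fun h => ?_, fun ⟨φ⟩ => ?_⟩
      · have : G' ∈ cls G' := ⟨SimpleGraph.Iso.refl⟩
        rwa [← h] at this
      · ext K
        exact ⟨fun ⟨ψ⟩ => ⟨φ.symm.trans ψ⟩, fun ⟨ψ⟩ => ⟨φ.trans ψ⟩⟩
    refine Pool.Agent.H32.ConnLim.main H (T := fun n => Set (SimpleGraph (Fin n)))
      (fun _ G => cls G) hH' (fun _ _ _ e G0 G1 G1' h => ?_) (fun n G G' h => (hc n G G').1 h)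
    obtain ⟨φ⟩ := (hc _ _ _).1 h
    exact (hc _ _ _).2 ⟨((SimpleGraph.Iso.comap e.symm _).trans
      (SimpleGraph.Iso.sumCongr SimpleGraph.Iso.refl φ)).trans (SimpleGraph.Iso.comap e.symm _).symm⟩

end Pool.Agent.Results.MP_66c21b_co.NoLimit
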